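import Mathlib
import Pool.Agent.W552.WbMain
import Pool.Agent.W552.WsMain

/-!
# Orthogonal lifts of cohomologically trivial cycles on semistable models

`D` is the system of numerical cycle groups of the strata of a projective strictly semistable fibre,
of relative dimension `n`, of a regular model of a variety. `c` is the restriction to the components
of a cycle of codimension `i ≥ 1` on the model (`w + 2 = 2 i`) whose generic fibre is
cohomologically trivial. Then there is a fibral cycle `z` such that the cycle corrected by `z` is
orthogonal to all fibral cycles `z'` of the complementary codimension. For `n ≤ 3` the condition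
`NoHigherPrimitive` is empty.
-/

set_option autoImplicit false

namespace Pool.Agent.Results.MP_62d77c_ag.SemistableLifts

open Pool.Agent.W522.M Pool.Agent.W552.Wl Pool.Agent.W552.Wb

theorem result {D : Strata ℚ} {n : ℕ} (h : IsNumerical D n) (hp : NoHigherPrimitive D n)
    {w v : ℕ} (hwv : w + 2 + v = 2 * n) (c : D.V 0 (w + 2)) (hc : OrthogonalToCocycles n c) :
    ∃ z : D.V 0 w, ∀ z' : D.V 0 v, ip c z' + fibral z z' = 0 := by
  obtain ⟨S, hS⟩ := Pool.Agent.W552.Ws.exists_star h.reduction
  exact lift h hS hp hwv c hc

end Pool.Agent.Results.MP_62d77c_ag.SemistableLifts
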